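import Pool.Agent.X206.TPG.E

set_option autoImplicit false

/-!
Polynomials interpolating totally positive sequences can have arbitrarily large gaps between consecutive
zeros: `(x+1)^M (x-b)^2` for `b > 0` not an integer and `M` large and even.
-/

namespace Pool.Agent.Results.MP_c563b5_an.GapsUnbounded

open Polynomial

/-- `a` is a totally positive sequence: all minors of the lower triangular Toeplitz matrix
`(a_{i-j})_{i,j ≥ 0}` (with `a_m = 0` for `m < 0`) are nonnegative; `r` lists the rows and `c` the columns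
of the minor. -/
def TotallyPositive (a : ℕ → ℝ) : Prop :=
  ∀ (m : ℕ) (r c : Fin m → ℕ), StrictMono r → StrictMono c →
    0 ≤ (Matrix.of fun p q => if c q ≤ r p then a (r p - c q) else 0).det

/-- `P` is admissible of degree `n` with the zeros `x` (listed in increasing order, with multiplicity) -/
def Admissible (n : ℕ) (P : ℝ[X]) (x : Fin n → ℝ) : Prop :=
  Monotone x ∧ (∃ K : ℝ, K ≠ 0 ∧ P = C K * ∏ j, (X - C (x j))) ∧
    TotallyPositive fun k => P.eval (k : ℝ)

/-- For every `d ≥ 1` there are `n ≥ 2`, an admissible polynomial of degree `n` and two consecutive zeros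
at distance larger than `d`. -/
theorem result : ∀ d : ℝ, 1 ≤ d → ∃ n : ℕ, 2 ≤ n ∧ ∃ (P : ℝ[X]) (x : Fin n → ℝ), Admissible n P x ∧
    ∃ (j : ℕ) (hj : j + 1 < n), d < x ⟨j + 1, hj⟩ - x ⟨j, by omega⟩ := by
  intro d hd
  obtain ⟨N, hN⟩ := exists_nat_ge d
  have hN1 : (1 : ℝ) ≤ N := hd.trans hN
  set b : ℝ := (N : ℝ) - 1 / 2 with hb
  have hNpos : 1 ≤ N := by exact_mod_cast hN1
  obtain ⟨μ, hμ, hμ1⟩ := ((Pool.Agent.X206.TPG.main (L := N) hNpos (b := b) (by rw [hb]; linarith)
    (by rw [hb]; linarith) (by rw [hb]; linarith)).and (Filter.eventually_ge_atTop 1)).exists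
  have hb1 : -1 ≤ b := by rw [hb]; linarith
  have hprod : (∏ j : Fin (2 * μ + 2), (X - C (if (j : ℕ) < 2 * μ then (-1 : ℝ) else b)) : ℝ[X]) =
      (X + 1) ^ (2 * μ) * (X - C b) ^ 2 := by
    rw [Fin.prod_univ_eq_prod_range (fun j => (X - C (if j < 2 * μ then (-1 : ℝ) else b) : ℝ[X])) (2 * μ + 2),
      Finset.prod_range_add]
    congr 1
    · rw [Finset.prod_congr rfl (g := fun _ => (X + 1 : ℝ[X])) (fun j hj => by
        rw [if_pos (Finset.mem_range.1 hj)]; simp)]
      simp
    · rw [Finset.prod_congr rfl (g := fun _ => (X - C b : ℝ[X])) (fun j _ => by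
        rw [if_neg (by omega)])]
      simp
  refine ⟨2 * μ + 2, by omega, (X + 1) ^ (2 * μ) * (X - C b) ^ 2, fun j => if (j : ℕ) < 2 * μ then -1 else b,
    ⟨?_, ⟨1, one_ne_zero, ?_⟩, ?_⟩, 2 * μ - 1, by omega, ?_⟩
  · intro i j hij
    have hij' : (i : ℕ) ≤ j := hij
    beta_reduce
    split_ifs with h1 h2
    · exact le_rfl
    · exact hb1
    · omega
    · exact le_rfl
  · rw [hprod, C_1, one_mul]
  · intro m r c hr hc
    have h := Pool.Agent.X206.TPG.lower_of_TP hμ r c hr hc
    simpa using h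
  · have h1 : ¬ (2 * μ - 1 + 1 < 2 * μ) := by omega
    have h2 : 2 * μ - 1 < 2 * μ := by omega
    simp only [h1, h2, if_true, if_false]
    rw [hb]
    linarith

end Pool.Agent.Results.MP_c563b5_an.GapsUnbounded
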